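import Pool.Agent.H509.MO.FinE

/-!
# The monoid Stark conjecture modulo the squares, for all orders and all moduli

Definitions.  `Pool.Agent.W206.MS` (library, file `Pool/Graph/R_seed8/W206/MS/Defs.lean`): `IsOrder`, `IsModulus`,
`InJ` (the group `J_m`), `InP` (its subgroup `P_m`), `InMonoid` and `Rel` (the ray class monoid), conditions (i)-(iv),
`IsRayClassField`, `MonoidStark` (the assertion of the conjecture for `O` and `m`).
`Pool.Agent.MO` (file `Pool/Agent/H509/MO/ModDef.lean`): `IsSquareSubgroup` (`N` is a subgroup of `J_m` containing `P_m` and
all squares) and `MonoidStarkMod` (the assertion of the conjecture modulo `N`: the classes of the monoid are replaced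
by their orbits under `N / P_m`, the ray class field by the class field of `N`).

`K` is a real quadratic field inside the real numbers, `σ` its other embedding, `O` any order, `m` any modulus.
-/

namespace Pool.Agent.Results.MP_6bf7a3_nt.ExponentTwoAllOrders

open Pool.Agent.W206.MS Pool.Agent.MO

/-- **The monoid Stark conjecture modulo every subgroup `N` with `J_m / N` of exponent two, for every order and every
modulus; in particular the conjecture itself if the ray class group has exponent two.** -/
theorem result (K : Type) [Field K] [NumberField K] [Algebra K ℝ] (hK : Module.finrank ℚ K = 2)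
    (σ : K →+* ℝ) (hσ : σ ≠ algebraMap K ℝ) (O : Subalgebra ℤ K) (hO : IsOrder O)
    (m : Submodule ℤ K) (hm : IsModulus O m) :
    (∀ N : Submodule ℤ K → Prop, IsSquareSubgroup σ O m N → MonoidStarkMod σ O m N) ∧
    ((∀ a, InJ O m a → InP O m σ (a * a)) → MonoidStark σ O m) :=
  ⟨fun N hN => mod_of allE allN K hK σ hσ O m hO hm N hN,
    fun h => exact_of allE all K hK σ hσ O m hO hm h⟩

end Pool.Agent.Results.MP_6bf7a3_nt.ExponentTwoAllOrders
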